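import Pool.Agent.H313.GE.Bd

/-!
# Finiteness of the Tate-Shafarevich groups over all extensions of `ℓ`-power degree, for almost all places

Let `k` be a finite field with `q` elements, of characteristic at least `5`, `K` a function field of one
variable with field of constants `k`, and `E : y ^ 2 = x ^ 3 + a x + b` an elliptic curve over `K`.

For a finite extension `L` of `K` with field of constants `k'` (with `q'` elements), over which the
`L`-function `L(T, E/L) = R` is a polynomial (by Grothendieck always, unless `E` becomes constant over `L`,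
where the Tate-Shafarevich group is finite by Milne), let `g_L` be the number of the zeros `x` of `R` such
that `q' x` is a root of unity (`geo`, with multiplicities). If `g_L = 0` then by the theorem of Tate, Milne,
Kato and Trihan the groups `E(L κ)` and `Sha(E / L κ)` are finite, for all finite extensions `κ` of `k'`.

Let `ℓ` be a prime different from the characteristic. The extensions `L` of `K` considered here are all the
Galois extensions of `ℓ`-power degree (with any Galois group of `ℓ`-power order, and any field of constants)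
which are unramified outside a finite set `B` of places. It is shown that `g_L = 0` for all of them if the
traces of Frobenius at the places of `B` avoid modulo `ℓ` certain residue classes, namely ONE class for each
divisor `m` of `ℓ - 1` or `ℓ + 1`: so for large `ℓ` almost all residue classes are allowed, the number of
the excluded ones being smaller than every power of `ℓ`. Any number of places is allowed.
-/

set_option autoImplicit false
set_option linter.all false
set_option maxHeartbeats 4000000

open Polynomial FF Module Pool.Agent.W343.BSD Pool.Agent.W309.RF Pool.Agent.Y701.QG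
open Pool.Agent.H313.GE Pool.Agent.H313.GE.Bd

namespace Pool.Agent.Results.MP_72e2e6_nt.AlmostAllResidueClasses

/-- The places of `B` are places of additive reduction, or places of degree `d` of good reduction with
trace of Frobenius modulo `ℓ` in `W`. -/
def InClasses {k K : Type} [Field k] [Field K] [Algebra k K] (ℓ : ℕ) (B : Finset (Place k K))
    (a b : K) (d : ℕ) (W : Finset (ZMod ℓ)) : Prop :=
  ∀ v ∈ B, (v.ord (minDisc v a b) ≠ 0 ∧ S.trace v a b = 0) ∨
    (v.ord (minDisc v a b) = 0 ∧ S.deg v = d ∧ ((S.trace v a b : ℤ) : ZMod ℓ) ∈ W)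

/-- Let `ℓ` be a prime.

(1) There is a set `W` of residue classes modulo `ℓ` which `Avoids` the traces of the roots of unity, and of
which the complement has at most as many elements as there are divisors of `ℓ - 1` or of `ℓ + 1`.

Let `W` be such a set (`Avoids`: for each `m` prime to `ℓ` there is a root of unity `ζ` of order `m` in an
algebraic closure of the field with `ℓ` elements such that `ζ + ζ⁻¹` is not in `W`), and `B` a finite set
of places with additive reduction, or of degree `d` with good reduction and trace in `W` modulo `ℓ`, where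
`ℓ` divides `q ^ d - 1` (`InClasses`; in the ramified places `ℓ` divides `q ^ d - 1`, and the places have
degree one over a suitable extension of `k`).

(2) If `L(T, E/K) V(T) = U(T)` with `V(0) = 1` and `U` is modulo `ℓ` a constant times `∏_{N ∈ t} Φ_N(q T)`,
then `[k' : k] g_L ≤ [L : K] ∑_{N ∈ t} φ(N)` for all `L`, and the `L`-function over `L κ` vanishes at
`1 / |κ|` at most to the order `g_L`, for all finite extensions `κ` of `k'`. In particular, if `t` is empty,
for instance if `L(T, E/K) = 1`: `E(L κ)` and `Sha(E / L κ)` are finite for all `L` and all `κ`.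

(3) For the rational elliptic surfaces `E : y ^ 2 = f(x) + 2 g(x) t + h(x) t ^ 2` over `K = k(t)`, `f`, `g`,
`h` of degree at most three (`Good`), this holds with `∑_P deg P` instead of `∑ φ(N)`, the sum over the monic
irreducible factors `P` of `g ^ 2 - f h` with `ε_P ≠ 0`, which is at most `6`. In particular
`Sha(E / L κ)` and `E(L κ)` are finite if `g ^ 2 - f h` is constant.

(4) Let `E : y ^ 2 = x ^ 3 + α x + β + t` over `K = k(t)`, where `ℓ` divides `q - 1`. Then `g_L = 0` for all `L`
unramified outside `t = ∞` and the points `t = τ`, where `τ` is in any finite subset `T` of `k` such that the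
curve `y ^ 2 = x ^ 3 + α x + β + τ` is nonsingular and `q` minus the number of its affine points is in `W`
modulo `ℓ`, for all `τ` in `T`. So `E` has only finitely many points over all the fields `L k̄`, and all the
groups `Sha(E / L κ)` are finite. (For large `q` and `ℓ` these are almost all elements `τ` of `k`, since the
traces are equidistributed, by Deligne, and only few classes are excluded. The genus of `L` and the
degree of the `L`-function of `E` over `L` are unbounded.) -/
theorem result (ℓ : ℕ) [Fact ℓ.Prime] :
    (∃ W : Finset (ZMod ℓ), Avoids ℓ W ∧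
      ℓ ≤ W.card + ((ℓ - 1).divisors ∪ (ℓ + 1).divisors).card) ∧
    ∀ W : Finset (ZMod ℓ), Avoids ℓ W →
    (∀ (k K : Type) [Field k] [Finite k] [Field K] [Algebra k K], IsCurveField k K →
      (6 : k) ≠ 0 → (ℓ : k) ≠ 0 → ∀ a b : K, 4 * a ^ 3 + 27 * b ^ 2 ≠ 0 →
      ∀ (B : Finset (Place k K)) (d : ℕ), (ℓ : ℤ) ∣ (Nat.card k : ℤ) ^ d - 1 →
        InClasses ℓ B a b d W → ∀ (U V : ℤ[X]), V.coeff 0 = 1 →
        S.Lfun k a b * (V : PowerSeries ℤ) = (U : PowerSeries ℤ) →
        ∀ (t : Multiset ℕ), (∀ N ∈ t, 0 < N) → (∃ z : ZMod ℓ, U.map (Int.castRingHom (ZMod ℓ)) =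
          cprod (ZMod ℓ) (Nat.card k) t * C z) → Bound k ℓ B a b (t.map Nat.totient).sum) ∧
    (∀ (k : Type) [Field k] [Finite k], (6 : k) ≠ 0 → (ℓ : k) ≠ 0 → ∀ f g h : k[X], Good f g h →
      ∀ S₀ R₀ : Finset k[X], IsFactors f g h S₀ R₀ → ∀ (B : Finset (Place k (RatFunc k))) (d : ℕ),
        (ℓ : ℤ) ∣ (Nat.card k : ℤ) ^ d - 1 → InClasses ℓ B (A (PA f g h)) (A (PB f g h)) d W →
        Bound k ℓ B (A (PA f g h)) (A (PB f g h))
          (∑ P ∈ S₀, if eps f h P = 0 then 0 else P.natDegree)) ∧
    ∀ (k : Type) [Field k] [Finite k], (6 : k) ≠ 0 → (ℓ : k) ≠ 0 → (ℓ : ℤ) ∣ (Nat.card k : ℤ) - 1 →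
      ∀ (α β : k) (T : Finset k), (∀ τ ∈ T, 4 * α ^ 3 + 27 * (β + τ) ^ 2 ≠ 0 ∧
        ((((Nat.card k : ℤ) - Nat.card {P : k × k // P.2 ^ 2 = P.1 ^ 3 + α * P.1 + (β + τ)} : ℤ)) :
          ZMod ℓ) ∈ W) →
      ∀ B : Finset (Place k (RatFunc k)),
        (∀ v ∈ B, v.ord RatFunc.X < 0 ∨ ∃ τ ∈ T, v.ord (A (X - C τ)) ≠ 0) →
        Bound k ℓ B (A (C α)) (A (C β + X)) 0 := by
  classical
  refine ⟨exists_avoids ℓ, fun W hW => ⟨?_, ?_, ?_⟩⟩
  · intro k K _ _ _ _ hK h6 hlk a b hΔ B d hd hB U V hV hP t ht hz
    have iK : FF.IsFF k K := ⟨hK.essFiniteType, hK.trdeg_eq_one⟩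
    exact bound_nc hK h6 hlk hΔ B hV hP ht hz (avoid_places hlk B hd hW hB)
  · intro k _ _ h6 hlk f g h hG S₀ R₀ hSR B d hd hB
    exact bound_family h6 hlk hG hSR B (avoid_places hlk B hd hW hB)
  · intro k _ _ h6 hlk hq α β T hT B hB
    apply bound_ex h6 hlk
    refine avoid_places hlk B (d := 1) (by rw [pow_one]; exact hq) hW ?_
    intro v hv
    rcases hB v hv with h1 | ⟨τ, hτ, h1⟩
    · have hinf : v = infty k := by
        by_contra hne
        have := fin_of_ne hne
        omega
      rw [hinf]
      exact Or.inl (tame_inf h6 α β)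
    · rcases tame_tau h6 (hT τ hτ).1 h1 with h3 | ⟨h3, h4, h5⟩
      · exact Or.inl h3
      · refine Or.inr ⟨h3, h4, ?_⟩
        rw [h5]
        exact (hT τ hτ).2

end Pool.Agent.Results.MP_72e2e6_nt.AlmostAllResidueClasses
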