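import Pool.Agent.X261.CT.Cmp

/-!
The Tate-Shafarevich groups of the Jacobians of the twists of `y ^ q = f(x) - t`, where `f` is a
composition of polynomials `x ^ r + c`, over the constant extensions `k'(t)` of `k(t)` and over the
layers `k'(t ^ (1 / p ^ b))` of the Kummer towers. The definitions of the Jacobian `J`, of its Galois
cohomology and of the Tate-Shafarevich group are in `Pool.Agent.Y160.SL.Jac`.
-/

set_option autoImplicit false

open Polynomial
open scoped Classical

namespace Pool.Agent.Results.MP_72e2e6_nt.CompositionTwistTowers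

open Pool.Agent.Y160.SL (Jac ShaTriv)
open Pool.Agent.X261.SE (composite Good)

section defs

variable {k : Type} [Field k]

/-- The polynomial `D ^ n (f(x / D) - t ^ m)` in `x` over `L = k(t)`, where `n` is the degree of `f`. The
curve `y ^ q = D ^ n (f(x / D) - t ^ m)` is the twist of the curve `y ^ q = f(x) - t ^ m` by `D ^ n`. With
`u = t ^ m` it is defined over `k(u)(u ^ (1 / m))`. -/
noncomputable def twist (L : Type) [Field L] [Algebra k[X] L] (f : k[X]) (m : ℕ) (D : k[X]) : L[X] :=
  ((f.map C - C (X ^ m) : k[X][X]).scaleRoots D).map (algebraMap k[X] L)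

/-- The conclusions for `(f, D)`. Let `k'` be a finite extension of `k` of degree prime to the degree
`n` of `f`, let `q = p ^ (s + 1)` be a power of a prime `p` not dividing `n` such that `k'` contains the
`q`-th roots of unity, `b = 0`, or `b` arbitrary if `f` is irreducible, `L = k'(t)`, `D' ≠ 0` in `k'[t]`
with all prime factors dividing `D(t ^ (p ^ b))`, and `J` the Jacobian over `L` of
`y ^ q = D' ^ n (f(x / D') - t ^ (p ^ b))`. Then every class of `p`-power order in `H ^ 1(L, J)` which is
trivial over the completions at all closed points of the affine line is zero, and `J(L) = p ^ m J(L)`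
for all `m`. -/
def TrivialInTowers (f D : k[X]) : Prop :=
  ∀ (k' L : Type) [Field k'] [Finite k'] [Algebra k k'] [Field L] [Algebra k'[X] L]
    [IsFractionRing k'[X] L], Nat.Coprime f.natDegree (Module.finrank k k') →
    ∀ (p s : ℕ) (ζ : k'), p.Prime → p.Coprime f.natDegree → IsPrimitiveRoot ζ (p ^ (s + 1)) →
    ∀ b : ℕ, (b = 0 ∨ Irreducible f) → ∀ D' : k'[X], D' ≠ 0 →
      (∀ Q : k'[X], Irreducible Q → Q ∣ D' → Q ∣ expand k' (p ^ b) (D.map (algebraMap k k'))) →
      ShaTriv p (p ^ (s + 1)) k'[X] (twist L (f.map (algebraMap k k')) (p ^ b) D') ∧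
      ∀ (m : ℕ) (x : Jac (p ^ (s + 1)) (twist L (f.map (algebraMap k k')) (p ^ b) D') L),
        ∃ y : Jac (p ^ (s + 1)) (twist L (f.map (algebraMap k k')) (p ^ b) D') L, x = p ^ m • y

/-- The monic irreducible polynomials `P` of degree `N` for which the conclusions hold. -/
def goodPrimes (f : k[X]) (N : ℕ) : Set k[X] :=
  {P : k[X] | P.Monic ∧ Irreducible P ∧ P.natDegree = N ∧ TrivialInTowers f P}

/-- The monic squarefree polynomials `D` of degree `n` for which the conclusions hold. -/
def goodTwists (f : k[X]) (n : ℕ) : Set k[X] :=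
  {D : k[X] | D.Monic ∧ Squarefree D ∧ D.natDegree = n ∧ TrivialInTowers f D}

end defs

theorem general {k : Type} [Field k] [Finite k] {f D : k[X]} (hmon : f.Monic)
    (hder : derivative f ≠ 0) (hD : D ≠ 0)
    (hin : ∀ P : k[X], Irreducible P → P ∣ D → Irreducible (P.comp f)) : TrivialInTowers f D := by
  intro k' L _ _ _ _ _ _ hr p s ζ hp hpn hζ b hb D' hD' hdd
  haveI : Module.Finite k k' := Module.Finite.of_finite
  have hf0 : 0 < f.natDegree := by
    rcases Nat.eq_zero_or_pos f.natDegree with h | h
    · exfalso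
      apply hder
      rw [natDegree_eq_zero.1 h |>.choose_spec.symm, derivative_C]
    · exact h
  have hder' : derivative (f.map (algebraMap k k')) ≠ 0 := by
    rw [derivative_map]
    exact (Polynomial.map_ne_zero_iff (algebraMap k k').injective).2 hder
  have hD1 : D.map (algebraMap k k') ≠ 0 :=
    (Polynomial.map_ne_zero_iff (algebraMap k k').injective).2 hD
  have hn' : p.Coprime (f.map (algebraMap k k')).natDegree := by
    rw [hmon.natDegree_map]
    exact hpn
  have hin' : ∀ P : k'[X], Irreducible P → P ∣ D.map (algebraMap k k') →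
      Irreducible (P.comp (f.map (algebraMap k k'))) := fun P hP hPD =>
    Pool.Agent.X261.TS.inert_of_dvd hmon hf0 hD hin hr hP hPD
  by_cases hb0 : b = 0
  · subst hb0
    have h := Pool.Agent.X261.TS.line_res (K := L) hp hζ (hmon.map (algebraMap k k')) hn' hder' hD'
      fun Q hQ hQd => hin' Q hQ (by
        have := hdd Q hQ hQd
        rwa [pow_zero, expand_one] at this)
    have e : twist L (f.map (algebraMap k k')) (p ^ 0) D' =
        ((Pool.Agent.X261.TS.graph (f.map (algebraMap k k'))).scaleRoots D').map
          (algebraMap k'[X] L) := by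
      unfold twist Pool.Agent.X261.TS.graph
      rw [pow_zero, pow_one]
    rw [e]
    exact h
  · have hirr : Irreducible f := hb.resolve_left hb0
    have hirr' : Irreducible (f.map (algebraMap k k')) :=
      Pool.Agent.X261.AA.irr_of_coprime hirr hr.symm
    exact Pool.Agent.X261.TS.kum_res (K := L) hp hζ (hmon.map (algebraMap k k')) hirr'
      ((separable_iff_derivative_ne_zero hirr').2 hder') hn' hD1 hin' b hD' hdd

theorem char_ne {k : Type} [Field k] [Finite k] {r : ℕ} (hr : r.Prime) (hd : r ∣ Nat.card k - 1) :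
    (r : k) ≠ 0 := by
  intro h0
  obtain ⟨p, hp⟩ := CharP.exists k
  have hpp : p.Prime := CharP.char_is_prime k p
  have h1 : p ∣ r := (CharP.cast_eq_zero_iff k p r).1 h0
  have h3 : p = r := (Nat.prime_dvd_prime_iff_eq hpp hr).1 h1
  have h4 : ((Nat.card k : ℕ) : k) = 0 := by
    haveI := Fintype.ofFinite k
    rw [Nat.card_eq_fintype_card]
    exact FiniteField.cast_card_eq_zero k
  have h5 : r ∣ Nat.card k := by
    rw [← h3]
    exact (CharP.cast_eq_zero_iff k p _).1 h4
  have h6 : 1 ≤ Nat.card k := Nat.card_pos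
  have h8 : r ∣ 1 := by
    have := (Nat.dvd_sub h5 hd)
    rwa [Nat.sub_sub_self h6] at this
  exact hr.one_lt.ne' (Nat.dvd_one.1 h8)

theorem composite_derivative {k : Type} [Field k] [Finite k] (s : List (ℕ × k))
    (hs : ∀ x ∈ s, x.1.Prime ∧ Odd x.1 ∧ x.1 ∣ Nat.card k - 1) :
    derivative (composite s) ≠ 0 := by
  have hmon : (composite s).Monic :=
    Pool.Agent.X261.CT.composite_monic s fun x hx => (hs x hx).1.ne_zero
  have hdeg := Pool.Agent.X261.SE.natDegree_composite s
  have hpos : 0 < (s.map fun x => x.1).prod := by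
    apply List.prod_pos
    intro a ha
    obtain ⟨x, hx, rfl⟩ := List.mem_map.1 ha
    exact (hs x hx).1.pos
  have hnk : (((s.map fun x => x.1).prod : ℕ) : k) ≠ 0 := by
    clear hmon hdeg hpos
    induction s with
    | nil => simp
    | cons x s ih =>
      rw [List.map_cons, List.prod_cons, Nat.cast_mul]
      exact mul_ne_zero (char_ne (hs x List.mem_cons_self).1 (hs x List.mem_cons_self).2.2)
        (ih fun y hy => hs y (List.mem_cons_of_mem _ hy))
  intro h
  set n := (s.map fun x => x.1).prod with hn
  have h1 : (derivative (composite s)).coeff (n - 1) = 0 := by rw [h, coeff_zero]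
  rw [coeff_derivative] at h1
  have h4 : (composite s).coeff (n - 1 + 1) = 1 := by
    have h5 : (composite s).leadingCoeff = 1 := hmon
    rw [leadingCoeff, hdeg] at h5
    rwa [Nat.sub_add_cancel hpos]
  rw [h4, one_mul] at h1
  apply hnk
  rw [← h1, ← Nat.cast_add_one, Nat.sub_add_cancel hpos]

/-- **Twists in the Kummer towers.** (1) Let `k` be a finite field, `f` in `k[x]` monic with `f' ≠ 0`,
and `D ≠ 0` in `k[t]` such that `P(f(x))` is irreducible for all irreducible `P ∣ D`. Then the
conclusions above hold for `(f, D)`.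

(2) Let `k` be a finite field with `q > 2` elements and `f` the composition of the polynomials
`x ^ r + c`, `(r, c)` in the list `s` (the first one is the outermost), where all `r` are odd primes
dividing `q - 1`. Let `δ = 1 - ∑ 1 / r`. For every `N > 0` the number of the monic irreducible
polynomials `P` of degree `N` for which the conclusions hold is at least
`(δ q ^ N - (m + 2) q ^ (N / 2)) / N`, where `m` is the length of `s`. For every `0 < α < δ` there are
`M` and `c > 0` such that for all `n ≥ M` the number of the monic squarefree polynomials `D` of degree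
`n` for which the conclusions hold is at least `c q ^ n / n ^ (1 - α)`. If no critical value of `f` is
the corresponding `r`-th power, then `f` is irreducible. -/
theorem result (k : Type) [Field k] [Finite k] :
    (∀ f D : k[X], f.Monic → derivative f ≠ 0 → D ≠ 0 →
      (∀ P : k[X], Irreducible P → P ∣ D → Irreducible (P.comp f)) → TrivialInTowers f D) ∧
    ∀ s : List (ℕ × k), 3 ≤ Nat.card k →
      (∀ x ∈ s, x.1.Prime ∧ Odd x.1 ∧ x.1 ∣ Nat.card k - 1) →
      (∀ N : ℕ, 0 < N → (1 - (s.map fun x => (1 : ℝ) / x.1).sum) * (Nat.card k : ℝ) ^ N ≤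
        N * (goodPrimes (composite s) N).ncard + (s.length + 2) * (Nat.card k : ℝ) ^ (N / 2)) ∧
      (∀ α : ℝ, 0 < α → α < 1 - (s.map fun x => (1 : ℝ) / x.1).sum →
        ∃ (M : ℕ) (c : ℝ), 0 < c ∧ ∀ n : ℕ, M ≤ n →
          c * (Nat.card k : ℝ) ^ n / (n : ℝ) ^ (1 - α) ≤ (goodTwists (composite s) n).ncard) ∧
      (Good s X → Irreducible (composite s)) := by
  refine ⟨fun f D h1 h2 h3 h4 => general h1 h2 h3 h4, fun s hq hs => ?_⟩
  have hmon : (composite s).Monic :=
    Pool.Agent.X261.CT.composite_monic s fun x hx => (hs x hx).1.ne_zero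
  have hder := composite_derivative s hs
  refine ⟨fun N hN => ?_, fun α h0 hα => ?_, fun hg => ?_⟩
  · refine (Pool.Agent.X261.CT.comp_lower hq s hs hN).trans ?_
    have hsub : ((Pool.Agent.X261.CT.sel (fun P : k[X] => Irreducible (P.comp (composite s))) N :
        Finset k[X]) : Set k[X]) ⊆ goodPrimes (composite s) N := by
      intro P hP
      obtain ⟨⟨h3, h4, h5⟩, h6⟩ := Pool.Agent.X261.CT.mem_sel.1 (Finset.mem_coe.1 hP)
      refine ⟨h3, h4, h5, general hmon hder h4.ne_zero fun Q hQ hQP => ?_⟩
      obtain ⟨u, hu⟩ := hQ.associated_of_dvd h4 hQP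
      have h7 : Associated (Q.comp (composite s)) (P.comp (composite s)) := by
        refine ⟨Units.map (compRingHom (composite s) : k[X] →* k[X]) u, ?_⟩
        show Q.comp (composite s) * (u : k[X]).comp (composite s) = _
        rw [← mul_comp, hu]
      exact h7.irreducible_iff.2 h6
    have hfin : (goodPrimes (composite s) N).Finite :=
      (Pool.Agent.X261.TD.irr_finite (k := k) N).subset fun P hP => ⟨hP.1, hP.2.1, hP.2.2.1⟩
    have h7 := Set.ncard_le_ncard hsub hfin
    rw [Set.ncard_coe_finset] at h7
    have h8 : ((Pool.Agent.X261.CT.sel (fun P : k[X] => Irreducible (P.comp (composite s)))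
        N).card : ℝ) ≤ (goodPrimes (composite s) N).ncard := by exact_mod_cast h7
    have h9 := mul_le_mul_of_nonneg_left h8 (Nat.cast_nonneg (α := ℝ) N)
    linarith
  · obtain ⟨M, c, hc, h⟩ := Pool.Agent.X261.CT.comp_count hq s hs h0 hα
    refine ⟨M + 1, c, hc, fun n hn => ?_⟩
    have hn0 : (0 : ℝ) < n := by
      have : 0 < n := by omega
      exact_mod_cast this
    have hsub : {D : k[X] | D.Monic ∧ Squarefree D ∧ D.natDegree = n ∧
        ∀ P : k[X], Irreducible P → P ∣ D → Irreducible (P.comp (composite s))} ⊆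
        goodTwists (composite s) n := by
      rintro D ⟨h4, h5, h6, h7⟩
      exact ⟨h4, h5, h6, general hmon hder h4.ne_zero h7⟩
    have hfin : (goodTwists (composite s) n).Finite :=
      (Pool.Agent.X261.TD.sqf_finite (k := k) n).subset fun D hD => ⟨hD.1, hD.2.1, hD.2.2.1⟩
    have h7 : (_ : ℝ) ≤ _ := Nat.cast_le.2 (Set.ncard_le_ncard hsub hfin)
    refine le_trans (le_of_eq ?_) ((h n (by omega)).trans h7)
    have e : (n : ℝ) ^ (α - 1) = ((n : ℝ) ^ (1 - α))⁻¹ := by
      rw [← Real.rpow_neg hn0.le]
      congr 1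
      ring
    rw [e]
    have hne : (n : ℝ) ^ (1 - α) ≠ 0 := (Real.rpow_pos_of_pos hn0 _).ne'
    field_simp
  · have h := Pool.Agent.X261.SE.irr_composite s (fun x hx => ⟨(hs x hx).1, (hs x hx).2.1⟩)
      ⟨X, monic_X, irreducible_X⟩ hg
    rwa [X_comp] at h

end Pool.Agent.Results.MP_72e2e6_nt.CompositionTwistTowers
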