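import Pool.Agent.X261.CT.Dic

/-!
The Tate-Shafarevich groups of the Jacobians of the twists of `y ^ q = D_ℓ(x, a) - t`, where `D_ℓ(x, a)`
is the Dickson polynomial of prime degree `ℓ`, over all the constant extensions `k'(t)` of `k(t)` of
degree prime to `ℓ`. For `q = 2` these are abelian varieties of dimension `(ℓ - 1) / 2` with real
multiplication by the subring `ℤ[ζ + ζ⁻¹]`, `ζ ^ ℓ = 1`, over an algebraic closure of the constants.
The definitions of the Jacobian `J`, of its Galois cohomology and of the Tate-Shafarevich group are in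
`Pool.Agent.Y160.SL.Jac`.
-/

set_option autoImplicit false

open Polynomial
open scoped Classical

namespace Pool.Agent.Results.MP_72e2e6_nt.DicksonTwistFamilies

open Pool.Agent.Y160.SL (Jac ShaTriv)

section defs

variable {k : Type} [Field k]

/-- The polynomial `D ^ n (f(x / D) - t)` in `x` over `L = k(t)`, where `n` is the degree of `f`. The
curve `y ^ q = D ^ n (f(x / D) - t)` is the twist of the curve `y ^ q = f(x) - t` by `D ^ n`. For `q = 2`
and odd `n` it is isomorphic to `D(t) y ^ 2 = f(x) - t`. -/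
noncomputable def twist (L : Type) [Field L] [Algebra k[X] L] (f D : k[X]) : L[X] :=
  ((f.map C - C X : k[X][X]).scaleRoots D).map (algebraMap k[X] L)

/-- The conclusions for `(f, D)`. Let `k'` be a finite extension of `k` of degree prime to the degree
`n` of `f`, let `q = p ^ (s + 1)` be a power of a prime `p` not dividing `n` such that `k'` contains the
`q`-th roots of unity, `L = k'(t)`, `D' ≠ 0` in `k'[t]` with all prime factors dividing `D`, and `J` the
Jacobian over `L` of `y ^ q = D' ^ n (f(x / D') - t)`. Then every class of `p`-power order in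
`H ^ 1(L, J)` which is trivial over the completions at all closed points of the affine line is zero,
and `J(L) = p ^ m J(L)` for all `m`. -/
def TrivialOverExtensions (f D : k[X]) : Prop :=
  ∀ (k' L : Type) [Field k'] [Finite k'] [Algebra k k'] [Field L] [Algebra k'[X] L]
    [IsFractionRing k'[X] L], Nat.Coprime f.natDegree (Module.finrank k k') →
    ∀ (p s : ℕ) (ζ : k'), p.Prime → p.Coprime f.natDegree → IsPrimitiveRoot ζ (p ^ (s + 1)) →
    ∀ D' : k'[X], D' ≠ 0 →
      (∀ Q : k'[X], Irreducible Q → Q ∣ D' → Q ∣ D.map (algebraMap k k')) →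
      ShaTriv p (p ^ (s + 1)) k'[X] (twist L (f.map (algebraMap k k')) D') ∧
      ∀ (m : ℕ) (x : Jac (p ^ (s + 1)) (twist L (f.map (algebraMap k k')) D') L),
        ∃ y : Jac (p ^ (s + 1)) (twist L (f.map (algebraMap k k')) D') L, x = p ^ m • y

/-- The monic irreducible polynomials `P` of degree `N` for which the conclusions hold. -/
def goodPrimes (f : k[X]) (N : ℕ) : Set k[X] :=
  {P : k[X] | P.Monic ∧ Irreducible P ∧ P.natDegree = N ∧ TrivialOverExtensions f P}

/-- The monic squarefree polynomials `D` of degree `n` for which the conclusions hold. -/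
def goodTwists (f : k[X]) (n : ℕ) : Set k[X] :=
  {D : k[X] | D.Monic ∧ Squarefree D ∧ D.natDegree = n ∧ TrivialOverExtensions f D}

end defs

/-- **Twists of the Dickson families.** Let `k` be a finite field with `q > 2` elements, `ℓ` an odd
prime dividing `q ^ 2 - 1`, `a ≠ 0` in `k` and `f = D_ℓ(x, a)` the Dickson polynomial, with
`D_ℓ(z + a / z, a) = z ^ ℓ + (a / z) ^ ℓ`.

(1) For every `N > 0` the number of the monic irreducible polynomials `P` of degree `N` for which the
conclusions above hold is at least `((1 / 2 - 1 / (2 ℓ)) q ^ N - 3 q ^ (N / 2)) / N`.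

(2) For every `α < 1 / 2 - 1 / (2 ℓ)` there is a `c > 0` such that for all `n ≥ 3` the number of the
monic squarefree polynomials `D` of degree `n` for which the conclusions above hold is at least
`c q ^ n / n ^ (1 - α)`. -/
theorem result (k : Type) [Field k] [Finite k] (hq : 3 ≤ Nat.card k) (ℓ : ℕ) (hℓ : ℓ.Prime)
    (h2 : ℓ ≠ 2) (hd : ℓ ∣ Nat.card k ^ 2 - 1) (a : k) (ha : a ≠ 0) :
    (∀ N : ℕ, 0 < N → ((ℓ : ℝ) - 1) / (2 * ℓ) * (Nat.card k : ℝ) ^ N ≤
      N * (goodPrimes (dickson 1 a ℓ) N).ncard + 3 * (Nat.card k : ℝ) ^ (N / 2)) ∧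
    ∀ α : ℝ, 0 < α → α < ((ℓ : ℝ) - 1) / (2 * ℓ) → ∃ c : ℝ, 0 < c ∧ ∀ n : ℕ, 3 ≤ n →
      c * (Nat.card k : ℝ) ^ n / (n : ℝ) ^ (1 - α) ≤ (goodTwists (dickson 1 a ℓ) n).ncard := by
  have hdeg : (dickson 1 a ℓ).natDegree = ℓ := Pool.Agent.TH943.PT.dick_natDegree a hℓ.pos
  have hmon : (dickson 1 a ℓ).Monic := Pool.Agent.TH943.PT.dick_monic a hℓ.pos
  have hlk : (ℓ : k) ≠ 0 := by
    intro h0
    obtain ⟨p, hp⟩ := CharP.exists k
    have hpp : p.Prime := CharP.char_is_prime k p
    have h1 : p ∣ ℓ := (CharP.cast_eq_zero_iff k p ℓ).1 h0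
    have h3 : p = ℓ := (Nat.prime_dvd_prime_iff_eq hpp hℓ).1 h1
    have h4 : ((Nat.card k : ℕ) : k) = 0 := by
      haveI := Fintype.ofFinite k
      rw [Nat.card_eq_fintype_card]
      exact FiniteField.cast_card_eq_zero k
    have h5 : ℓ ∣ Nat.card k := by
      rw [← h3]
      exact (CharP.cast_eq_zero_iff k p _).1 h4
    have h6 : ℓ ∣ Nat.card k ^ 2 := h5.trans (dvd_pow_self _ two_ne_zero)
    have h7 : 1 ≤ Nat.card k ^ 2 := Nat.one_le_pow _ _ (by omega)
    have h8 : ℓ ∣ 1 := by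
      have := (Nat.dvd_sub h6 hd)
      rwa [Nat.sub_sub_self h7] at this
    exact hℓ.one_lt.ne' (Nat.dvd_one.1 h8)
  have hf' : derivative (dickson 1 a ℓ) ≠ 0 := by
    intro h
    have h1 : (derivative (dickson 1 a ℓ)).coeff (ℓ - 1) = 0 := by rw [h, coeff_zero]
    rw [coeff_derivative] at h1
    have h4 : (dickson 1 a ℓ).coeff (ℓ - 1 + 1) = 1 := by
      have h5 : (dickson 1 a ℓ).leadingCoeff = 1 := hmon
      rw [leadingCoeff, hdeg] at h5
      rwa [Nat.sub_add_cancel hℓ.pos]
    rw [h4, one_mul] at h1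
    apply hlk
    have h6 : (((ℓ - 1 : ℕ) : k) + 1) = ((ℓ : ℕ) : k) := by
      rw [← Nat.cast_add_one, Nat.sub_add_cancel hℓ.pos]
    rw [← h6]
    exact h1
  have key : ∀ D : k[X], D ≠ 0 →
      (∀ P : k[X], Irreducible P → P ∣ D → Irreducible (P.comp (dickson 1 a ℓ))) →
      TrivialOverExtensions (dickson 1 a ℓ) D := by
    intro D hD hin k' L _ _ _ _ _ _ hr p s ζ hp hpn hζ D' hD' hdd
    have hf0 : 0 < (dickson 1 a ℓ).natDegree := by
      rw [hdeg]
      exact hℓ.pos
    have hder : derivative ((dickson 1 a ℓ).map (algebraMap k k')) ≠ 0 := by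
      rw [derivative_map]
      exact (Polynomial.map_ne_zero_iff (algebraMap k k').injective).2 hf'
    refine Pool.Agent.X261.TS.line_res (K := L) hp hζ (hmon.map _) ?_ hder hD' ?_
    · rw [hmon.natDegree_map]
      exact hpn
    · intro Q hQ hQd
      exact Pool.Agent.X261.TS.inert_of_dvd hmon hf0 hD hin hr hQ (hdd Q hQ hQd)
  refine ⟨fun N hN => ?_, fun α h0 hα => ?_⟩
  · refine (Pool.Agent.X261.CT.dick_lower hℓ h2 ha hd hq hN).trans ?_
    have hsub : ((Pool.Agent.X261.CT.sel (fun P : k[X] => Irreducible (P.comp (dickson 1 a ℓ))) N :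
        Finset k[X]) : Set k[X]) ⊆ goodPrimes (dickson 1 a ℓ) N := by
      intro P hP
      obtain ⟨⟨h3, h4, h5⟩, h6⟩ := Pool.Agent.X261.CT.mem_sel.1 (Finset.mem_coe.1 hP)
      refine ⟨h3, h4, h5, key P h4.ne_zero fun Q hQ hQP => ?_⟩
      obtain ⟨u, hu⟩ := hQ.associated_of_dvd h4 hQP
      have h7 : Associated (Q.comp (dickson 1 a ℓ)) (P.comp (dickson 1 a ℓ)) := by
        refine ⟨Units.map (compRingHom (dickson 1 a ℓ) : k[X] →* k[X]) u, ?_⟩
        show Q.comp (dickson 1 a ℓ) * (u : k[X]).comp (dickson 1 a ℓ) = _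
        rw [← mul_comp, hu]
      exact h7.irreducible_iff.2 h6
    have hfin : (goodPrimes (dickson 1 a ℓ) N).Finite :=
      (Pool.Agent.X261.TD.irr_finite (k := k) N).subset fun P hP => ⟨hP.1, hP.2.1, hP.2.2.1⟩
    have h7 := Set.ncard_le_ncard hsub hfin
    rw [Set.ncard_coe_finset] at h7
    have h8 : ((Pool.Agent.X261.CT.sel (fun P : k[X] => Irreducible (P.comp (dickson 1 a ℓ)))
        N).card : ℝ) ≤ (goodPrimes (dickson 1 a ℓ) N).ncard := by exact_mod_cast h7
    have h9 := mul_le_mul_of_nonneg_left h8 (Nat.cast_nonneg (α := ℝ) N)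
    linarith
  · obtain ⟨c, hc, h⟩ := Pool.Agent.X261.CT.dick_count hℓ h2 ha hd hq h0 hα
    refine ⟨c, hc, fun n hn => ?_⟩
    have hn0 : (0 : ℝ) < n := by
      have : 0 < n := by omega
      exact_mod_cast this
    have hsub : {D : k[X] | D.Monic ∧ Squarefree D ∧ D.natDegree = n ∧
        ∀ P : k[X], Irreducible P → P ∣ D → Irreducible (P.comp (dickson 1 a ℓ))} ⊆
        goodTwists (dickson 1 a ℓ) n := by
      rintro D ⟨h4, h5, h6, h7⟩
      exact ⟨h4, h5, h6, key D h4.ne_zero h7⟩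
    have hfin : (goodTwists (dickson 1 a ℓ) n).Finite :=
      (Pool.Agent.X261.TD.sqf_finite (k := k) n).subset fun D hD => ⟨hD.1, hD.2.1, hD.2.2.1⟩
    have h7 : (_ : ℝ) ≤ _ := Nat.cast_le.2 (Set.ncard_le_ncard hsub hfin)
    refine le_trans (le_of_eq ?_) ((h n hn).trans h7)
    have e : (n : ℝ) ^ (α - 1) = ((n : ℝ) ^ (1 - α))⁻¹ := by
      rw [← Real.rpow_neg hn0.le]
      congr 1
      ring
    rw [e]
    have hne : (n : ℝ) ^ (1 - α) ≠ 0 := (Real.rpow_pos_of_pos hn0 _).ne'
    field_simp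

end Pool.Agent.Results.MP_72e2e6_nt.DicksonTwistFamilies
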