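import Pool.Agent.X261.TS.Ext

/-!
The Tate-Shafarevich groups of the Jacobians of the twists of `y ^ q = f(x) - t` by polynomials whose
prime factors are inert, over all the constant extensions `k'(t)` of `k(t)` of degree prime to `deg f`.
The definitions of the Jacobian `J`, of its Galois cohomology and of the Tate-Shafarevich group are in
`Pool.Agent.Y160.SL.Jac`.
-/

set_option autoImplicit false

open Polynomial
open scoped Classical

namespace Pool.Agent.Results.MP_72e2e6_nt.InertTwistsConstantExtensions

open Pool.Agent.Y160.SL (Jac ShaTriv)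

section defs

variable {k : Type} [Field k]

/-- The polynomial `D ^ n (f(x / D) - t)` in `x` over `L = k(t)`, where `n` is the degree of `f`. The
curve `y ^ q = D ^ n (f(x / D) - t)` is the twist of the curve `y ^ q = f(x) - t` by `D ^ n`. For `q = 2`
and odd `n` it is isomorphic to `D(t) y ^ 2 = f(x) - t`. -/
noncomputable def twist (L : Type) [Field L] [Algebra k[X] L] (f D : k[X]) : L[X] :=
  ((f.map C - C X : k[X][X]).scaleRoots D).map (algebraMap k[X] L)

/-- The conclusions for `(f, D)`. Let `k'` be a finite extension of `k` of degree prime to the degree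
`n` of `f`, let `q = p ^ (s + 1)` be a power of a prime `p` not dividing `n` such that `k'` contains the
`q`-th roots of unity, `L = k'(t)`, `D' ≠ 0` in `k'[t]` with all prime factors dividing `D`, and `J` the
Jacobian over `L` of `y ^ q = D' ^ n (f(x / D') - t)`. Then every class of `p`-power order in
`H ^ 1(L, J)` which is trivial over the completions at all closed points of the affine line is zero,
and `J(L) = p ^ m J(L)` for all `m`. -/
def TrivialOverExtensions (f D : k[X]) : Prop :=
  ∀ (k' L : Type) [Field k'] [Finite k'] [Algebra k k'] [Field L] [Algebra k'[X] L]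
    [IsFractionRing k'[X] L], Nat.Coprime f.natDegree (Module.finrank k k') →
    ∀ (p s : ℕ) (ζ : k'), p.Prime → p.Coprime f.natDegree → IsPrimitiveRoot ζ (p ^ (s + 1)) →
    ∀ D' : k'[X], D' ≠ 0 →
      (∀ Q : k'[X], Irreducible Q → Q ∣ D' → Q ∣ D.map (algebraMap k k')) →
      ShaTriv p (p ^ (s + 1)) k'[X] (twist L (f.map (algebraMap k k')) D') ∧
      ∀ (m : ℕ) (x : Jac (p ^ (s + 1)) (twist L (f.map (algebraMap k k')) D') L),
        ∃ y : Jac (p ^ (s + 1)) (twist L (f.map (algebraMap k k')) D') L, x = p ^ m • y

/-- The monic irreducible polynomials `P` of degree `N` for which the conclusions hold. -/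
def goodPrimes (f : k[X]) (N : ℕ) : Set k[X] :=
  {P : k[X] | P.Monic ∧ Irreducible P ∧ P.natDegree = N ∧ TrivialOverExtensions f P}

end defs

/-- **Twists by inert primes over the constant extensions.** Let `k` be a finite field with `q`
elements.

(1) Let `f` be a monic polynomial over `k` with `f' ≠ 0`, and `D ≠ 0` a polynomial such that `P(f(x))`
is irreducible for every prime factor `P` of `D`. Then the `p`-primary part of the Tate-Shafarevich
group of the Jacobian of `y ^ (p ^ (s + 1)) = D' ^ n (f(x / D') - t)` over `k'(t)` is zero, for all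
`k'`, `p`, `s`, `D'` as in `TrivialOverExtensions`; and `J(k'(t))` is `p`-divisible.

(2) Let `f` be a cubic polynomial which is not of the form `(x - a) ^ 3 + b`, in characteristic
different from two and three. Then for every `N > 0` the number of the monic irreducible polynomials
`P` of degree `N` with this property is at least `(q ^ N - 6 q ^ (N / 2)) / (3 N)`. -/
theorem result (k : Type) [Field k] [Finite k] (f : k[X]) (hf : f.Monic) :
    (derivative f ≠ 0 → ∀ D : k[X], D ≠ 0 →
      (∀ P : k[X], Irreducible P → P ∣ D → Irreducible (P.comp f)) → TrivialOverExtensions f D) ∧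
    ((2 : k) ≠ 0 → (3 : k) ≠ 0 → f.natDegree = 3 → f.coeff 2 ^ 2 ≠ 3 * f.coeff 1 →
      ∀ N : ℕ, 0 < N →
        Nat.card k ^ N ≤ 3 * N * (goodPrimes f N).ncard + 6 * Nat.card k ^ (N / 2)) := by
  have key : derivative f ≠ 0 → ∀ D : k[X], D ≠ 0 →
      (∀ P : k[X], Irreducible P → P ∣ D → Irreducible (P.comp f)) →
      TrivialOverExtensions f D := by
    intro hf' D hD hin k' L _ _ _ _ _ _ hr p s ζ hp hpn hζ D' hD' hdd
    have hf0 : 0 < f.natDegree := by
      rcases Nat.eq_zero_or_pos f.natDegree with h | h
      · exact absurd (derivative_of_natDegree_zero h) hf'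
      · exact h
    have hder : derivative (f.map (algebraMap k k')) ≠ 0 := by
      rw [derivative_map]
      exact (Polynomial.map_ne_zero_iff (algebraMap k k').injective).2 hf'
    refine Pool.Agent.X261.TS.line_res (K := L) hp hζ (hf.map _) ?_ hder hD' ?_
    · rw [hf.natDegree_map]
      exact hpn
    · intro Q hQ hQd
      exact Pool.Agent.X261.TS.inert_of_dvd hf hf0 hD hin hr hQ (hdd Q hQ hQd)
  refine ⟨key, fun h2 h3 hd hg N hN => ?_⟩
  have hf' : derivative f ≠ 0 := by
    intro h
    have h1 : (derivative f).coeff 2 = 0 := by rw [h, coeff_zero]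
    rw [coeff_derivative] at h1
    have h4 : f.coeff (2 + 1) = 1 := by
      have h5 : f.leadingCoeff = 1 := hf
      rwa [leadingCoeff, hd] at h5
    rw [h4, one_mul] at h1
    exact h3 (by push_cast at h1; linear_combination h1)
  obtain ⟨hc, -⟩ := Pool.Agent.X261.TS.inert_bounds h2 h3 hf hd hg hN
  refine hc.trans ?_
  have hsub : {P ∈ Pool.Agent.X261.TD.irr k N | Irreducible (P.comp f)} ⊆ goodPrimes f N := by
    rintro P ⟨hP, hPf⟩
    refine ⟨hP.1, hP.2.1, hP.2.2, key hf' P hP.1.ne_zero fun Q hQ hQP => ?_⟩
    obtain ⟨u, hu⟩ := hQ.associated_of_dvd hP.2.1 hQP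
    have h6 : Associated (Q.comp f) (P.comp f) := by
      refine ⟨Units.map (compRingHom f : k[X] →* k[X]) u, ?_⟩
      show Q.comp f * (u : k[X]).comp f = _
      rw [← mul_comp, hu]
    exact h6.irreducible_iff.2 hPf
  have hfin : (goodPrimes f N).Finite :=
    (Pool.Agent.X261.TD.irr_finite (k := k) N).subset fun P hP => ⟨hP.1, hP.2.1, hP.2.2.1⟩
  have h7 := Set.ncard_le_ncard hsub hfin
  have h8 : 3 * (N * {P ∈ Pool.Agent.X261.TD.irr k N | Irreducible (P.comp f)}.ncard) ≤
      3 * N * (goodPrimes f N).ncard := by
    rw [mul_assoc]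
    exact Nat.mul_le_mul_left _ (Nat.mul_le_mul_left _ h7)
  omega

end Pool.Agent.Results.MP_72e2e6_nt.InertTwistsConstantExtensions
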